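import Mathlib

/-!
# Vertex-centroid moves: linear algebra

In terms of the vectors `w i = v i - centroid`, with sum zero, a move of the vertex `i` multiplies
`w i` by a number `c` and adds `(1 - c) / (n - 1) * w i` to the other vectors. All the configurations
in which two given vectors are independent can be transformed into each other.
-/

namespace Q143.VC

open Finset

variable {ι : Type*} [Fintype ι] [DecidableEq ι]

/-- The number of vertices as a real number. -/
noncomputable def N (ι : Type*) [Fintype ι] : ℝ := Fintype.card ι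

/-- The effect of a move of the vertex `i`. -/
noncomputable def stepFun (i : ι) (c : ℝ) (w : ι → ℂ) : ι → ℂ :=
  fun k => if k = i then c * w i else w k + ((1 - c) / (N ι - 1) : ℝ) * w i

/-- A move with nonzero factor. -/
def Step (w w' : ι → ℂ) : Prop := ∃ i, ∃ c : ℝ, c ≠ 0 ∧ w' = stepFun i c w

/-- Reachability. -/
def Eqv (w w' : ι → ℂ) : Prop := Relation.ReflTransGen Step w w'

theorem Eqv.refl (w : ι → ℂ) : Eqv w w := Relation.ReflTransGen.refl

theorem Eqv.trans {w w' w'' : ι → ℂ} (h : Eqv w w') (h' : Eqv w' w'') : Eqv w w'' :=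
  Relation.ReflTransGen.trans h h'

theorem stepFun_inv (i : ι) {c : ℝ} (hc : c ≠ 0) (w : ι → ℂ) :
    stepFun i c⁻¹ (stepFun i c w) = w := by
  funext k
  have hc' : (c : ℂ) ≠ 0 := by exact_mod_cast hc
  unfold stepFun
  by_cases hk : k = i
  · subst hk
    simp only [if_true]
    push_cast
    field_simp
  · simp only [if_neg hk, if_true]
    push_cast
    field_simp
    ring

theorem Step.symm {w w' : ι → ℂ} (h : Step w w') : Step w' w := by
  obtain ⟨i, c, hc, rfl⟩ := h
  exact ⟨i, c⁻¹, inv_ne_zero hc, (stepFun_inv i hc w).symm⟩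

theorem Eqv.symm {w w' : ι → ℂ} (h : Eqv w w') : Eqv w' w := by
  have : Std.Symm (Step (ι := ι)) := ⟨fun _ _ h => Step.symm h⟩
  exact (Relation.ReflTransGen.stdSymm (r := Step (ι := ι))).symm _ _ h

/-- The action of `2 × 2` matrices on the pair `w i, w j`; the other vectors are translated. -/
noncomputable def act (i j : ι) (M : Matrix (Fin 2) (Fin 2) ℝ) (w : ι → ℂ) : ι → ℂ :=
  fun k => if k = i then M 0 0 * w i + M 0 1 * w j else if k = j then M 1 0 * w i + M 1 1 * w j
    else w k - ((M 0 0 + M 1 0 - 1) * w i + (M 0 1 + M 1 1 - 1) * w j) / ((N ι : ℂ) - 2)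

theorem act_mul {i j : ι} (hij : i ≠ j) (M M' : Matrix (Fin 2) (Fin 2) ℝ) (w : ι → ℂ) :
    act i j (M * M') w = act i j M (act i j M' w) := by
  funext k
  have hji : j ≠ i := hij.symm
  unfold act
  simp only [Matrix.mul_apply, Fin.sum_univ_two, if_true, if_neg hji]
  by_cases hk : k = i
  · simp only [if_pos hk]
    push_cast
    ring
  · by_cases hk' : k = j
    · simp only [if_neg hk, if_pos hk']
      push_cast
      ring
    · simp only [if_neg hk, if_neg hk']
      push_cast
      ring

/-- The matrix acts by moves. -/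
def P (i j : ι) (M : Matrix (Fin 2) (Fin 2) ℝ) : Prop := ∀ w : ι → ℂ, Eqv w (act i j M w)

theorem P.mul {i j : ι} (hij : i ≠ j) {M M' : Matrix (Fin 2) (Fin 2) ℝ} (h : P i j M)
    (h' : P i j M') : P i j (M * M') := by
  intro w
  rw [act_mul hij]
  exact (h' w).trans (h _)

section
variable (h3 : 3 ≤ Fintype.card ι)
include h3

omit [DecidableEq ι] in
theorem N_ge : (3 : ℝ) ≤ N ι := by
  unfold N
  exact_mod_cast h3

omit [DecidableEq ι] in
theorem N_sub_two : ((N ι : ℂ) - 2) ≠ 0 := by
  have h := N_ge h3
  intro h'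
  have : ((N ι - 2 : ℝ) : ℂ) = 0 := by push_cast; exact h'
  have h2 : N ι - 2 = 0 := by exact_mod_cast this
  linarith

omit [DecidableEq ι] in
theorem N_sub_one : ((N ι : ℂ) - 1) ≠ 0 := by
  have h := N_ge h3
  intro h'
  have : ((N ι - 1 : ℝ) : ℂ) = 0 := by push_cast; exact h'
  have h2 : N ι - 1 = 0 := by exact_mod_cast this
  linarith

theorem P_L {i j : ι} (_hij : i ≠ j) {c : ℝ} (hc : c ≠ 0) :
    P i j !![c, 0; (1 - c) / (N ι - 1), 1] := by
  intro w
  refine Relation.ReflTransGen.single ⟨i, c, hc, ?_⟩
  funext k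
  have h1 := N_sub_one h3
  have h2 := N_sub_two h3
  unfold act stepFun
  simp only [Matrix.of_apply, Matrix.cons_val', Matrix.cons_val_zero, Matrix.cons_val_one,
    Matrix.cons_val_fin_one]
  by_cases hk : k = i
  · simp only [if_pos hk]
    push_cast
    ring
  · by_cases hk' : k = j
    · simp only [if_neg hk, if_pos hk', hk']
      push_cast
      ring
    · simp only [if_neg hk, if_neg hk']
      push_cast
      field_simp
      ring

theorem P_R {i j : ι} (hij : i ≠ j) {c : ℝ} (hc : c ≠ 0) :
    P i j !![1, (1 - c) / (N ι - 1); 0, c] := by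
  intro w
  refine Relation.ReflTransGen.single ⟨j, c, hc, ?_⟩
  funext k
  have h1 := N_sub_one h3
  have h2 := N_sub_two h3
  unfold act stepFun
  simp only [Matrix.of_apply, Matrix.cons_val', Matrix.cons_val_zero, Matrix.cons_val_one,
    Matrix.cons_val_fin_one]
  by_cases hk : k = i
  · subst hk
    simp only [if_true, if_neg hij]
    push_cast
    ring
  · by_cases hk' : k = j
    · simp only [if_neg hk, if_pos hk']
      push_cast
      ring
    · simp only [if_neg hk, if_neg hk']
      push_cast
      field_simp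
      ring

/-- The transvections. -/
theorem P_T {i j : ι} (hij : i ≠ j) (t : ℝ) : P i j !![1, 0; t, 1] := by
  have hN := N_ge h3
  obtain ⟨r, hr⟩ : ∃ r, r = 1 / (N ι - 1) := ⟨_, rfl⟩
  have hr0 : 0 < r := by rw [hr]; exact one_div_pos.2 (by linarith)
  have hr2 : r ≤ 1 / 2 := by
    rw [hr]
    exact one_div_le_one_div_of_le (by norm_num) (by linarith)
  have hdiv : ∀ c : ℝ, (1 - c) / (N ι - 1) = r * (1 - c) := fun c => by rw [hr]; ring
  obtain ⟨κ, hκ⟩ : ∃ κ, κ = r * (2 * r ^ 2 - 1) * (r ^ 2 - 1) := ⟨_, rfl⟩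
  have hκ0 : κ ≠ 0 := by
    rw [hκ]
    refine mul_ne_zero (mul_ne_zero hr0.ne' ?_) ?_
    · nlinarith
    · nlinarith
  -- the case of a generic parameter
  have key : ∀ t : ℝ, t ≠ κ → P i j !![1, 0; t, 1] := by
    intro t ht
    have hκt : κ - t ≠ 0 := fun h => ht (by linarith)
    obtain ⟨c, hc⟩ : ∃ c, c = κ / (κ - t) := ⟨_, rfl⟩
    have hc0 : c ≠ 0 := by rw [hc]; exact div_ne_zero hκ0 hκt
    have htc : t = κ * (1 - 1 / c) := by
      rw [hc]
      field_simp
      ring
    obtain ⟨d, hd⟩ : ∃ d, d = (2 * r ^ 2 - 3) / (1 + 2 * r ^ 2) := ⟨_, rfl⟩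
    have h12 : 1 + 2 * r ^ 2 ≠ 0 := by positivity
    have h23 : 2 * r ^ 2 - 3 ≠ 0 := by nlinarith
    have hd0 : d ≠ 0 := by rw [hd]; exact div_ne_zero h23 h12
    have h := ((P_R h3 hij hd0).mul hij ((P_L h3 hij (c := 2) (by norm_num)).mul hij
      ((P_R h3 hij (c := -1) (by norm_num)).mul hij ((P_L h3 hij hc0).mul hij
      ((P_R h3 hij (c := -1) (by norm_num)).mul hij ((P_L h3 hij (c := 1 / 2) (by norm_num)).mul hij
      ((P_R h3 hij (inv_ne_zero hd0)).mul hij (P_L h3 hij (inv_ne_zero hc0)))))))))
    convert h using 1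
    simp only [hdiv, Matrix.mul_fin_two]
    obtain ⟨e, he⟩ : ∃ e, e = 2 * r ^ 2 - 3 := ⟨_, rfl⟩
    have he0 : e ≠ 0 := by rw [he]; exact h23
    have he4 : e + 4 ≠ 0 := by
      rw [he]
      intro h
      apply h12
      linarith
    have e0 : d = e / (e + 4) := by
      rw [hd, he]
      congr 1
      ring
    have e1 : d⁻¹ = (e + 4) / e := by rw [e0, inv_div]
    rw [e1, e0, htc, hκ]
    ext a b
    fin_cases a <;> fin_cases b <;>
      simp only [Matrix.of_apply, Matrix.cons_val', Matrix.cons_val_zero, Matrix.cons_val_one,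
        Matrix.cons_val_fin_one, Fin.zero_eta, Fin.mk_one, Fin.isValue]
    all_goals
      field_simp
      rw [he]
      ring
  by_cases ht : t = κ
  · have h := (key (κ / 2) (fun h => hκ0 (by linarith))).mul hij
      (key (κ / 2) (fun h => hκ0 (by linarith)))
    convert h using 1
    rw [ht, Matrix.mul_fin_two]
    ext a b
    fin_cases a <;> fin_cases b <;> simp
  · exact key t ht

/-- Add `t w i` to `w j` and subtract it from `w l`. -/
theorem eqv_S {i j l : ι} (hij : i ≠ j) (hil : i ≠ l) (hjl : j ≠ l) (t : ℝ) (w : ι → ℂ) :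
    Eqv w (fun k => if k = j then w j + t * w i else if k = l then w l - t * w i else w k) := by
  have h1 := N_sub_one h3
  have h2 := N_sub_two h3
  obtain ⟨t', ht'⟩ : ∃ t', t' = t * (N ι - 2) / (N ι - 1) := ⟨_, rfl⟩
  have h := (P_T h3 hil (-t') w).trans (P_T h3 hij t' _)
  convert h using 1
  funext k
  unfold act
  simp only [Matrix.of_apply, Matrix.cons_val', Matrix.cons_val_zero, Matrix.cons_val_one,
    Matrix.cons_val_fin_one]
  by_cases hkj : k = j
  · have hji : j ≠ i := hij.symm
    simp only [if_pos hkj, hkj, if_neg hji, if_neg hjl, if_true, ht']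
    push_cast
    field_simp
    ring
  · by_cases hkl : k = l
    · have hli : l ≠ i := hil.symm
      have hlj : l ≠ j := hjl.symm
      simp only [hkl, if_neg hli, if_neg hlj, if_true, ht']
      push_cast
      field_simp
      ring
    · by_cases hki : k = i
      · simp only [hki, if_neg hij, if_neg hil, if_true]
        push_cast
        ring
      · simp only [if_neg hkj, if_neg hkl, if_neg hki, if_true]
        push_cast
        ring

/-- Add multiples of `w i` to the vectors with index in `s`, keeping the sum with the help of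
`w l`. -/
theorem eqv_G {i l : ι} (hil : i ≠ l) (s : Finset ι) (hi : i ∉ s) (hl : l ∉ s) (c : ι → ℝ)
    (w : ι → ℂ) :
    Eqv w (fun k => if k ∈ s then w k + c k * w i else
      if k = l then w l - (∑ a ∈ s, c a : ℝ) * w i else w k) := by
  induction s using Finset.induction_on with
  | empty =>
    convert Eqv.refl w using 1
    funext k
    by_cases hk : k = l
    · subst hk
      simp
    · simp [hk]
  | insert a s ha ih =>
    have hi' : i ∉ s := fun h => hi (Finset.mem_insert_of_mem h)
    have hl' : l ∉ s := fun h => hl (Finset.mem_insert_of_mem h)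
    have hia : i ≠ a := by
      rintro rfl
      exact hi (Finset.mem_insert_self _ _)
    have hal : a ≠ l := by
      rintro rfl
      exact hl (Finset.mem_insert_self _ _)
    have h := (ih hi' hl').trans (eqv_S h3 hia hil hal (c a) _)
    convert h using 1
    funext k
    simp only [if_neg hi', if_neg hil]
    by_cases hka : k = a
    · subst hka
      simp [ha, hal]
    · by_cases hkl : k = l
      · subst hkl
        simp only [Finset.mem_insert, hka, false_or, if_neg hl', if_true, if_false]
        rw [Finset.sum_insert ha]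
        push_cast
        ring
      · simp only [Finset.mem_insert, hka, false_or, if_neg hkl, if_false]

end

/-- `Re x · Im y - Im x · Re y` -/
def det (x y : ℂ) : ℝ := x.re * y.im - x.im * y.re

theorem det_span {x y : ℂ} (h : det x y ≠ 0) (z : ℂ) : ∃ a b : ℝ, z = a * x + b * y := by
  refine ⟨det z y / det x y, det x z / det x y, ?_⟩
  apply Complex.ext
  · simp only [Complex.add_re, Complex.mul_re, Complex.ofReal_re, Complex.ofReal_im, zero_mul,
      sub_zero]
    field_simp
    unfold det
    ring
  · simp only [Complex.add_im, Complex.mul_im, Complex.ofReal_re, Complex.ofReal_im, zero_mul,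
      add_zero]
    field_simp
    unfold det
    ring

/-- The configuration with three nonzero vectors `x, y, -x-y`. -/
noncomputable def Can (i j l : ι) (x y : ℂ) : ι → ℂ :=
  fun k => if k = i then x else if k = j then y else if k = l then -x - y else 0

section
variable (h3 : 3 ≤ Fintype.card ι)
include h3

theorem eqv_can {i j l : ι} (hij : i ≠ j) (hil : i ≠ l) (hjl : j ≠ l) (w : ι → ℂ)
    (hsum : ∑ k, w k = 0) (hdet : det (w i) (w j) ≠ 0) : Eqv w (Can i j l (w i) (w j)) := by
  choose a b hab using fun k => det_span hdet (w k)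
  let s : Finset ι := (Finset.univ.erase i).erase j |>.erase l
  have hi : i ∉ s := by simp [s]
  have hj : j ∉ s := by simp [s]
  have hl : l ∉ s := by simp [s]
  have hs : ∀ k, k ≠ i → k ≠ j → k ≠ l → k ∈ s := by
    intro k h1 h2 h3
    simp [s, h1, h2, h3]
  have h := (eqv_G h3 hil s hi hl (fun k => -a k) w).trans
    (eqv_G h3 hjl s hj hl (fun k => -b k) _)
  convert h using 1
  funext k
  unfold Can
  have hji : j ≠ i := hij.symm
  have hlj : l ≠ j := hjl.symm
  have hli : l ≠ i := hil.symm
  by_cases hki : k = i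
  · subst hki
    simp only [if_true, if_neg hi, if_neg hil]
  · by_cases hkj : k = j
    · subst hkj
      simp only [if_neg hki, if_true, if_neg hj, if_neg hjl]
    · by_cases hkl : k = l
      · subst hkl
        simp only [if_neg hki, if_neg hkj, if_true, if_neg hl, if_neg hj, if_neg hjl]
        have e : ∑ k, w k = w i + w j + w k + ∑ m ∈ s, w m := by
          rw [← Finset.add_sum_erase _ _ (Finset.mem_univ i),
            ← Finset.add_sum_erase (Finset.univ.erase i) _ (a := j) (by simp [hji]),
            ← Finset.add_sum_erase ((Finset.univ.erase i).erase j) _ (a := k) (by simp [hki, hkj])]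
          ring
        have e2 : ∑ m ∈ s, w m = (∑ m ∈ s, (a m : ℂ)) * w i + (∑ m ∈ s, (b m : ℂ)) * w j := by
          rw [Finset.sum_mul, Finset.sum_mul, ← Finset.sum_add_distrib]
          exact Finset.sum_congr rfl fun m _ => hab m
        rw [hsum, e2] at e
        push_cast
        rw [Finset.sum_neg_distrib, Finset.sum_neg_distrib]
        linear_combination e
      · have hks := hs k hki hkj hkl
        simp only [if_neg hki, if_neg hkj, if_neg hkl, if_pos hks, if_neg hj, if_neg hjl]
        have := hab k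
        push_cast
        linear_combination -this

omit [Fintype ι] h3 in
theorem can_swap {i j l : ι} (hij : i ≠ j) (x y : ℂ) : Can i j l x y = Can j i l y x := by
  funext k
  unfold Can
  by_cases hki : k = i
  · subst hki
    simp [hij]
  · by_cases hkj : k = j
    · subst hkj
      simp [hki]
    · simp only [if_neg hki, if_neg hkj]
      split_ifs <;> ring

theorem can_add {i j l : ι} (hij : i ≠ j) (hil : i ≠ l) (hjl : j ≠ l) (x y : ℂ) (t : ℝ) :
    Eqv (Can i j l x y) (Can i j l x (y + t * x)) := by
  have h := eqv_S h3 hij hil hjl t (Can i j l x y)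
  convert h using 1
  funext k
  unfold Can
  have hji : j ≠ i := hij.symm
  have hlj : l ≠ j := hjl.symm
  have hli : l ≠ i := hil.symm
  by_cases hkj : k = j
  · subst hkj
    simp [hji]
  · by_cases hkl : k = l
    · subst hkl
      simp only [if_neg hli, if_neg hlj, if_true]
      ring
    · simp only [if_neg hkj, if_neg hkl]

omit h3 in
theorem can_sum {i j l : ι} (hij : i ≠ j) (hil : i ≠ l) (hjl : j ≠ l) (x y : ℂ) :
    ∑ k, Can i j l x y k = 0 := by
  have hji : j ≠ i := hij.symm
  have hlj : l ≠ j := hjl.symm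
  have hli : l ≠ i := hil.symm
  rw [← Finset.add_sum_erase _ _ (Finset.mem_univ i),
    ← Finset.add_sum_erase (Finset.univ.erase i) _ (a := j) (by simp [hji]),
    ← Finset.add_sum_erase ((Finset.univ.erase i).erase j) _ (a := l) (by simp [hli, hlj]),
    Finset.sum_eq_zero]
  · simp only [Can, if_true, if_neg hji, if_neg hlj, if_neg hli]
    ring
  · intro k hk
    simp only [Finset.mem_erase] at hk
    simp only [Can, if_neg hk.1, if_neg hk.2.1, if_neg hk.2.2.1]

theorem step_sum {i : ι} (c : ℝ) (w : ι → ℂ) (hw : ∑ k, w k = 0) : ∑ k, stepFun i c w k = 0 := by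
  have h1 := N_sub_one h3
  rw [← Finset.add_sum_erase _ _ (Finset.mem_univ i)]
  have e : ∑ k ∈ Finset.univ.erase i, stepFun i c w k =
      ∑ k ∈ Finset.univ.erase i, (w k + ((1 - c) / (N ι - 1) : ℝ) * w i) := by
    refine Finset.sum_congr rfl fun k hk => ?_
    rw [Finset.mem_erase] at hk
    simp only [stepFun, if_neg hk.1]
  have hcard : ((Finset.univ.erase i : Finset ι).card : ℂ) = N ι - 1 := by
    rw [Finset.card_erase_of_mem (Finset.mem_univ i), Finset.card_univ, Nat.cast_sub (by omega)]
    simp [N]
  rw [e, Finset.sum_add_distrib, Finset.sum_const, nsmul_eq_mul, hcard]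
  rw [← Finset.add_sum_erase _ _ (Finset.mem_univ i)] at hw
  simp only [stepFun, if_true]
  push_cast
  field_simp
  linear_combination hw

theorem can_scale {i j l : ι} (hij : i ≠ j) (hil : i ≠ l) (hjl : j ≠ l) {x y : ℂ}
    (hdet : det x y ≠ 0) {c : ℝ} (hc : c ≠ 0) :
    Eqv (Can i j l x y) (Can i j l (c * x) y) := by
  have hji : j ≠ i := hij.symm
  have hstep : Eqv (Can i j l x y) (stepFun i c (Can i j l x y)) :=
    Relation.ReflTransGen.single ⟨i, c, hc, rfl⟩
  have e1 : stepFun i c (Can i j l x y) i = c * x := by simp [stepFun, Can]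
  have e2 : stepFun i c (Can i j l x y) j = y + ((1 - c) / (N ι - 1) : ℝ) * x := by
    simp [stepFun, Can, hji]
  have hd : det (stepFun i c (Can i j l x y) i) (stepFun i c (Can i j l x y) j) ≠ 0 := by
    rw [e1, e2]
    have : det (c * x) (y + ((1 - c) / (N ι - 1) : ℝ) * x) = c * det x y := by
      simp only [det, Complex.add_re, Complex.add_im, Complex.mul_re, Complex.mul_im,
        Complex.ofReal_re, Complex.ofReal_im, zero_mul, sub_zero, add_zero]
      ring
    rw [this]
    exact mul_ne_zero hc hdet
  have h := eqv_can h3 hij hil hjl _ (step_sum h3 c _ (can_sum hij hil hjl x y)) hd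
  rw [e1, e2] at h
  have h' := can_add h3 hij hil hjl (c * x) (y + ((1 - c) / (N ι - 1) : ℝ) * x)
    (-((1 - c) / (N ι - 1) / c))
  have e3 : y + ((1 - c) / (N ι - 1) : ℝ) * x + (-((1 - c) / (N ι - 1) / c) : ℝ) * (c * x) = y := by
    have hc' : (c : ℂ) ≠ 0 := by exact_mod_cast hc
    have h1 := N_sub_one h3
    push_cast
    field_simp
    ring
  rw [e3] at h'
  exact hstep.trans (h.trans h')

omit [Fintype ι] [DecidableEq ι] h3 in
theorem det_swap (x y : ℂ) : det y x = -det x y := by
  unfold det
  ring

theorem can_scale' {i j l : ι} (hij : i ≠ j) (hil : i ≠ l) (hjl : j ≠ l) {x y : ℂ}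
    (hdet : det x y ≠ 0) {c : ℝ} (hc : c ≠ 0) :
    Eqv (Can i j l x y) (Can i j l x (c * y)) := by
  rw [can_swap hij x y, can_swap hij x (c * y)]
  refine can_scale h3 hij.symm hjl hil ?_ hc
  rw [det_swap]
  exact neg_ne_zero.2 hdet

theorem can_add' {i j l : ι} (hij : i ≠ j) (hil : i ≠ l) (hjl : j ≠ l) (x y : ℂ) (t : ℝ) :
    Eqv (Can i j l x y) (Can i j l (x + t * y) y) := by
  rw [can_swap hij x y, can_swap hij (x + t * y) y]
  exact can_add h3 hij.symm hjl hil y x t

omit [Fintype ι] [DecidableEq ι] h3 in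
theorem det_comb (x y : ℂ) (a b c d : ℝ) :
    det (a * x + b * y) (c * x + d * y) = (a * d - b * c) * det x y := by
  simp only [det, Complex.add_re, Complex.add_im, Complex.mul_re, Complex.mul_im,
    Complex.ofReal_re, Complex.ofReal_im, zero_mul, sub_zero, add_zero]
  ring

theorem can_gl {i j l : ι} (hij : i ≠ j) (hil : i ≠ l) (hjl : j ≠ l) {x y : ℂ}
    (hdet : det x y ≠ 0) {a b c d : ℝ} (ha : a ≠ 0) (hD : a * d - b * c ≠ 0) :
    Eqv (Can i j l x y) (Can i j l (a * x + b * y) (c * x + d * y)) := by
  have ha' : (a : ℂ) ≠ 0 := by exact_mod_cast ha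
  have h1 := can_scale h3 hij hil hjl hdet ha
  have h2 := can_add' h3 hij hil hjl (a * x) y b
  have hd2 : det (a * x + b * y) y ≠ 0 := by
    have := det_comb x y a b 0 1
    simp only [Complex.ofReal_zero, zero_mul, Complex.ofReal_one, one_mul, zero_add] at this
    rw [this]
    exact mul_ne_zero (by simpa using ha) hdet
  have h4 := can_scale' h3 hij hil hjl hd2 (c := (a * d - b * c) / a) (div_ne_zero hD ha)
  have h5 := can_add h3 hij hil hjl (a * x + b * y) (((a * d - b * c) / a : ℝ) * y) (c / a)
  have e : (((a * d - b * c) / a : ℝ) : ℂ) * y + (c / a : ℝ) * (a * x + b * y) =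
      c * x + d * y := by
    push_cast
    field_simp
    ring
  rw [e] at h5
  exact h1.trans (h2.trans (h4.trans h5))

/-- All the configurations `Can i j l x y` with independent `x, y` are equivalent. -/
theorem can_eqv {i j l : ι} (hij : i ≠ j) (hil : i ≠ l) (hjl : j ≠ l) {x y x' y' : ℂ}
    (hdet : det x y ≠ 0) (hdet' : det x' y' ≠ 0) :
    Eqv (Can i j l x y) (Can i j l x' y') := by
  obtain ⟨a, b, hx⟩ := det_span hdet x'
  obtain ⟨c, d, hy⟩ := det_span hdet y'
  have hD : a * d - b * c ≠ 0 := by
    intro h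
    apply hdet'
    rw [hx, hy, det_comb, h, zero_mul]
  by_cases ha : a = 0
  · have hb : b ≠ 0 := by
      rintro rfl
      apply hD
      rw [ha]
      ring
    have h1 := can_add h3 hij hil hjl x y 1
    have hdet1 : det x (y + (1 : ℝ) * x) ≠ 0 := by
      have := det_comb x y 1 0 1 1
      simp only [Complex.ofReal_zero, zero_mul, Complex.ofReal_one, one_mul, add_zero, mul_one,
        sub_zero] at this
      rw [Complex.ofReal_one, one_mul, add_comm, this]
      exact hdet
    have h2 := can_gl h3 hij hil hjl hdet1 (a := -b) (b := b) (c := c - d) (d := d)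
      (neg_ne_zero.2 hb) (by
        intro h
        apply hD
        rw [ha]
        linear_combination h)
    have e1 : ((-b : ℝ) : ℂ) * x + b * (y + (1 : ℝ) * x) = x' := by
      rw [hx, ha]
      push_cast
      ring
    have e2 : ((c - d : ℝ) : ℂ) * x + d * (y + (1 : ℝ) * x) = y' := by
      rw [hy]
      push_cast
      ring
    rw [e1, e2] at h2
    exact h1.trans h2
  · rw [hx, hy]
    exact can_gl h3 hij hil hjl hdet ha hD

/-- Any two configurations in which the vectors with indices `i, j` are independent can be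
transformed into each other. -/
theorem eqv_of_det {i j : ι} (hij : i ≠ j) {w w' : ι → ℂ} (hs : ∑ k, w k = 0)
    (hs' : ∑ k, w' k = 0) (hdet : det (w i) (w j) ≠ 0) (hdet' : det (w' i) (w' j) ≠ 0) :
    Eqv w w' := by
  obtain ⟨l, hil, hjl⟩ : ∃ l, i ≠ l ∧ j ≠ l := by
    have : ({i, j} : Finset ι).card < Fintype.card ι :=
      lt_of_le_of_lt Finset.card_le_two (by omega)
    obtain ⟨l, hl⟩ : ∃ l, l ∉ ({i, j} : Finset ι) := by
      by_contra hcon
      push Not at hcon
      exact (Finset.card_lt_iff_ne_univ _).1 this (Finset.eq_univ_of_forall hcon)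
    simp only [Finset.mem_insert, Finset.mem_singleton, not_or] at hl
    exact ⟨l, fun h => hl.1 h.symm, fun h => hl.2 h.symm⟩
  exact (eqv_can h3 hij hil hjl w hs hdet).trans ((can_eqv h3 hij hil hjl hdet hdet').trans
    (eqv_can h3 hij hil hjl w' hs' hdet').symm)

end

end Q143.VC
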